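import Pool.Agent.Helper35.FJL.Tails

set_option autoImplicit false

namespace Pool.Agent.FJL

open Finset Pool.Agent.Helper67.JL

theorem dense_sign_sum {k d : ℕ} (x : Fin d → ℝ) (a : Fin k × Fin d → ℝ) (κ : Fin k) :
    ∑ i : Fin k × Fin d, a i * (if i.1 = κ then x i.2 / Real.sqrt k else 0) =
      ∑ j, a (κ, j) / Real.sqrt k * x j := by
  rw [Fintype.sum_prod_type, Finset.sum_eq_single κ]
  · apply Finset.sum_congr rfl
    intro j _
    simp only [if_true]
    ring
  · intro b _ hb
    apply Finset.sum_eq_zero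
    intro j _
    simp [hb]
  · simp

theorem dense_sign (d k : ℕ) (hd : 1 ≤ d) (hk : 1 ≤ k) (x : Fin d → ℝ) (ε : ℝ) (h0 : 0 < ε)
    (h1 : ε < 1) :
    pr (fun ρ : Fin k × Fin d → Bool => ¬ (
      (1 - ε) * Real.sqrt (∑ j, x j ^ 2) ≤
        Real.sqrt (∑ i, (∑ j, sg (ρ (i, j)) / Real.sqrt k * x j) ^ 2) ∧
      Real.sqrt (∑ i, (∑ j, sg (ρ (i, j)) / Real.sqrt k * x j) ^ 2) ≤
        (1 + ε) * Real.sqrt (∑ j, x j ^ 2))) ≤ 2 * Real.exp (-(ε ^ 2 * k / 16)) := by
  have hk' : (0 : ℝ) < k := by exact_mod_cast hk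
  have hsk : 0 < Real.sqrt k := Real.sqrt_pos.2 hk'
  have hsk2 : Real.sqrt k ^ 2 = k := Real.sq_sqrt hk'.le
  set T : ℝ := ∑ j, x j ^ 2 with hT
  have hT0 : 0 ≤ T := Finset.sum_nonneg fun j _ => sq_nonneg _
  rcases hT0.eq_or_lt with hT00 | hTpos
  · -- trivial case
    have hx : ∀ j, x j = 0 := by
      intro j
      have := (Finset.sum_eq_zero_iff_of_nonneg (fun j _ => sq_nonneg (x j))).1
        (hT ▸ hT00.symm) j (Finset.mem_univ j)
      exact pow_eq_zero_iff (two_ne_zero) |>.1 this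
    have hf : ∀ ρ : Fin k × Fin d → Bool, ¬ (
      (1 - ε) * Real.sqrt T ≤
        Real.sqrt (∑ i, (∑ j, sg (ρ (i, j)) / Real.sqrt k * x j) ^ 2) ∧
      Real.sqrt (∑ i, (∑ j, sg (ρ (i, j)) / Real.sqrt k * x j) ^ 2) ≤
        (1 + ε) * Real.sqrt T) → False := by
      intro ρ h
      apply h
      have : ∑ i, (∑ j, sg (ρ (i, j)) / Real.sqrt k * x j) ^ 2 = 0 := by
        apply Finset.sum_eq_zero
        intro i _
        simp [hx]
      rw [this, ← hT00]
      simp
    refine (pr_mono hf).trans ?_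
    rw [pr_false]
    positivity
  · have hop : ∀ a : Fin k × Fin d → ℝ,
        ∑ κ, (∑ i, a i * (fun (i : Fin k × Fin d) (κ : Fin k) =>
          if i.1 = κ then x i.2 / Real.sqrt k else 0) i κ) ^ 2 ≤ (T / k) * ∑ i, a i ^ 2 := by
      intro a
      simp only [dense_sign_sum]
      rw [Fintype.sum_prod_type (fun i => a i ^ 2), Finset.mul_sum]
      apply Finset.sum_le_sum
      intro κ _
      have h := Finset.sum_mul_sq_le_sq_mul_sq Finset.univ (fun j => a (κ, j) / Real.sqrt k) x
      refine h.trans (le_of_eq ?_)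
      have : ∑ j, (a (κ, j) / Real.sqrt k) ^ 2 = (∑ j, a (κ, j) ^ 2) / k := by
        rw [Finset.sum_div]
        apply Finset.sum_congr rfl
        intro j _
        rw [div_pow, hsk2]
      rw [this]
      ring
    have htr : ∑ i, ∑ κ, (fun (i : Fin k × Fin d) (κ : Fin k) =>
          if i.1 = κ then x i.2 / Real.sqrt k else 0) i κ ^ 2 = T := by
      have h1 : ∀ i : Fin k × Fin d, ∑ κ : Fin k,
          (if i.1 = κ then x i.2 / Real.sqrt k else 0) ^ 2 = x i.2 ^ 2 / k := by
        intro i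
        rw [Finset.sum_eq_single i.1]
        · simp only [if_true]
          rw [div_pow, hsk2]
        · intro b _ hb
          simp [Ne.symm hb]
        · simp
      simp only [h1]
      rw [Fintype.sum_prod_type]
      simp only [← Finset.sum_div]
      rw [← hT, Finset.sum_const, Finset.card_univ, Fintype.card_fin, nsmul_eq_mul]
      field_simp
    have hB : 0 < T / k := by positivity
    have hmain := chaos_dev (fun (i : Fin k × Fin d) (κ : Fin k) =>
          if i.1 = κ then x i.2 / Real.sqrt k else 0) (T / k) T ε hB h0 h1.le hop htr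
    have hexp : ε ^ 2 * T / (16 * (T / k)) = ε ^ 2 * k / 16 := by
      field_simp
    rw [hexp] at hmain
    refine le_trans (pr_mono ?_) hmain
    intro ρ hρ hcon
    apply hρ
    have hs : ∀ κ : Fin k, ∑ i : Fin k × Fin d, sg (ρ i) *
        (if i.1 = κ then x i.2 / Real.sqrt k else 0) =
        ∑ j, sg (ρ (κ, j)) / Real.sqrt k * x j := fun κ =>
      dense_sign_sum x (fun i => sg (ρ i)) κ
    simp only [hs] at hcon
    set Y : ℝ := ∑ κ, (∑ j, sg (ρ (κ, j)) / Real.sqrt k * x j) ^ 2 with hY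
    obtain ⟨hc1, hc2⟩ := hcon
    constructor
    · apply Real.le_sqrt_of_sq_le
      rw [mul_pow, Real.sq_sqrt hT0]
      refine le_trans ?_ hc1
      apply mul_le_mul_of_nonneg_right _ hT0
      nlinarith
    · rw [Real.sqrt_le_left (by positivity), mul_pow, Real.sq_sqrt hT0]
      refine hc2.trans ?_
      apply mul_le_mul_of_nonneg_right _ hT0
      nlinarith

end Pool.Agent.FJL
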