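import Pool.Agent.Helper32.FJL.Defs

set_option autoImplicit false

namespace Pool.Agent.FJL

open Finset Pool.Agent.Helper67.JL

/-- The `t` largest values of `f` on `S`. -/
theorem exists_top {I : Type} [DecidableEq I] (f : I → ℝ) (S : Finset I) (t : ℕ)
    (ht : t ≤ S.card) :
    ∃ T : Finset I, T ⊆ S ∧ T.card = t ∧ ∀ i ∈ T, ∀ j ∈ S \ T, f j ≤ f i := by
  induction t with
  | zero => exact ⟨∅, by simp, by simp, by simp⟩
  | succ t ih =>
    obtain ⟨T, hTS, hTc, hT⟩ := ih (by omega)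
    have hne : (S \ T).Nonempty := by
      rw [← Finset.card_pos, Finset.card_sdiff_of_subset hTS]; omega
    obtain ⟨i0, hi0, hmax⟩ := Finset.exists_max_image (S \ T) f hne
    have hi0' := Finset.mem_sdiff.1 hi0
    refine ⟨insert i0 T, ?_, ?_, ?_⟩
    · intro i hi
      rcases Finset.mem_insert.1 hi with h | h
      · rw [h]; exact hi0'.1
      · exact hTS h
    · rw [Finset.card_insert_of_notMem hi0'.2, hTc]
    · intro i hi j hj
      have hj' := Finset.mem_sdiff.1 hj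
      have hjT : j ∈ S \ T := Finset.mem_sdiff.2
        ⟨hj'.1, fun h => hj'.2 (Finset.mem_insert_of_mem h)⟩
      rcases Finset.mem_insert.1 hi with h | h
      · rw [h]; exact hmax j hjT
      · exact hT i h j hjT

/-- One group of at most `t` columns. -/
theorem tail_group {I : Type} [Fintype I] (U : I → I → ℝ) (L : ℝ) (hL : 0 ≤ L)
    (hU : Spread L U) (x : I → ℝ) (t : ℕ) (Q : Finset I) (hQ : Q.card ≤ t)
    (a : I → ℝ) (S : Finset I) (hS : S.card ≤ t) (W : ℝ)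
    (hW : ∀ j ∈ S, (t : ℝ) * x j ^ 2 ≤ W) :
    ∑ i ∈ Q, (∑ j ∈ S, U i j * (x j * a j)) ^ 2 ≤
      L / (Fintype.card I : ℝ) * (W * ∑ j ∈ S, a j ^ 2) := by
  have h1 := hU Q S (fun j => x j * a j)
  have hm : 0 ≤ L / (Fintype.card I : ℝ) := by positivity
  have hmax : max (Q.card : ℝ) (S.card : ℝ) ≤ t := by
    apply max_le
    · exact_mod_cast hQ
    · exact_mod_cast hS
  have h2 : (t : ℝ) * ∑ j ∈ S, (x j * a j) ^ 2 ≤ W * ∑ j ∈ S, a j ^ 2 := by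
    rw [Finset.mul_sum, Finset.mul_sum]
    apply Finset.sum_le_sum
    intro j hj
    have := mul_le_mul_of_nonneg_right (hW j hj) (sq_nonneg (a j))
    nlinarith [this]
  have h0 : 0 ≤ ∑ j ∈ S, (x j * a j) ^ 2 := Finset.sum_nonneg fun j _ => sq_nonneg _
  calc ∑ i ∈ Q, (∑ j ∈ S, U i j * (x j * a j)) ^ 2
      ≤ L * max (Q.card : ℝ) (S.card : ℝ) / (Fintype.card I : ℝ) * ∑ j ∈ S, (x j * a j) ^ 2 := h1
    _ = L / (Fintype.card I : ℝ) * (max (Q.card : ℝ) (S.card : ℝ) * ∑ j ∈ S, (x j * a j) ^ 2) := by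
        ring
    _ ≤ L / (Fintype.card I : ℝ) * ((t : ℝ) * ∑ j ∈ S, (x j * a j) ^ 2) := by
        apply mul_le_mul_of_nonneg_left _ hm
        exact mul_le_mul_of_nonneg_right hmax h0
    _ ≤ L / (Fintype.card I : ℝ) * (W * ∑ j ∈ S, a j ^ 2) :=
        mul_le_mul_of_nonneg_left h2 hm

/-- Minkowski in the form needed here. -/
theorem sum_sq_add_le {I : Type} (Q : Finset I) (u v : I → ℝ) (c W A X A' : ℝ) (hc : 0 ≤ c)
    (hW : 0 ≤ W) (hA : 0 ≤ A) (hX : 0 ≤ X) (hA' : 0 ≤ A')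
    (hu : ∑ i ∈ Q, u i ^ 2 ≤ c * (W * A)) (hv : ∑ i ∈ Q, v i ^ 2 ≤ c * (X * A')) :
    ∑ i ∈ Q, (u i + v i) ^ 2 ≤ c * ((W + X) * (A + A')) := by
  have hcs : (∑ i ∈ Q, u i * v i) ^ 2 ≤ (∑ i ∈ Q, u i ^ 2) * ∑ i ∈ Q, v i ^ 2 :=
    Finset.sum_mul_sq_le_sq_mul_sq Q u v
  have h1 : (∑ i ∈ Q, u i * v i) ^ 2 ≤ (c * (W * A)) * (c * (X * A')) :=
    hcs.trans (mul_le_mul hu hv (Finset.sum_nonneg fun j _ => sq_nonneg _) (by positivity))
  have h2 : (2 * ∑ i ∈ Q, u i * v i) ^ 2 ≤ (c * (W * A' + X * A)) ^ 2 := by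
    have h3 : 0 ≤ c ^ 2 * (W * A' - X * A) ^ 2 := by positivity
    nlinarith [h1, h3]
  have h4 : 2 * ∑ i ∈ Q, u i * v i ≤ c * (W * A' + X * A) :=
    le_of_sq_le_sq h2 (by positivity)
  have h5 : ∑ i ∈ Q, (u i + v i) ^ 2 =
      ∑ i ∈ Q, u i ^ 2 + 2 * ∑ i ∈ Q, u i * v i + ∑ i ∈ Q, v i ^ 2 := by
    rw [Finset.mul_sum, ← Finset.sum_add_distrib, ← Finset.sum_add_distrib]
    exact Finset.sum_congr rfl fun i _ => by ring
  rw [h5]
  nlinarith [h4, hu, hv]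

theorem tail_aux {I : Type} [Fintype I] [DecidableEq I] (U : I → I → ℝ) (L : ℝ) (hL : 0 ≤ L)
    (hU : Spread L U) (x : I → ℝ) (t : ℕ) (ht : 1 ≤ t) (Q : Finset I) (hQ : Q.card ≤ t)
    (a : I → ℝ) (n : ℕ) : ∀ (S : Finset I) (_ : S.card ≤ n) (W : ℝ) (_ : 0 ≤ W)
    (_ : ∀ j ∈ S, (t : ℝ) * x j ^ 2 ≤ W),
    ∑ i ∈ Q, (∑ j ∈ S, U i j * (x j * a j)) ^ 2 ≤
      L / (Fintype.card I : ℝ) * ((W + ∑ j ∈ S, x j ^ 2) * ∑ j ∈ S, a j ^ 2) := by
  induction n using Nat.strong_induction_on with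
  | _ n ih =>
    intro S hSn W hW0 hW
    have hm : 0 ≤ L / (Fintype.card I : ℝ) := by positivity
    have hA0 : ∀ S : Finset I, 0 ≤ ∑ j ∈ S, a j ^ 2 :=
      fun S => Finset.sum_nonneg fun j _ => sq_nonneg _
    have hX0 : ∀ S : Finset I, 0 ≤ ∑ j ∈ S, x j ^ 2 :=
      fun S => Finset.sum_nonneg fun j _ => sq_nonneg _
    by_cases hSt : S.card ≤ t
    · refine (tail_group U L hL hU x t Q hQ a S hSt W hW).trans ?_
      apply mul_le_mul_of_nonneg_left _ hm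
      apply mul_le_mul_of_nonneg_right _ (hA0 S)
      linarith [hX0 S]
    · obtain ⟨T, hTS, hTc, hT⟩ := exists_top (fun j => x j ^ 2) S t (by omega)
      have hcard : (S \ T).card = S.card - t := by
        rw [Finset.card_sdiff_of_subset hTS, hTc]
      have hW' : ∀ j ∈ S \ T, (t : ℝ) * x j ^ 2 ≤ ∑ i ∈ T, x i ^ 2 := by
        intro j hj
        have : ∑ _i ∈ T, x j ^ 2 ≤ ∑ i ∈ T, x i ^ 2 :=
          Finset.sum_le_sum fun i hi => hT i hi j hj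
        rwa [Finset.sum_const, hTc, nsmul_eq_mul] at this
      have h2 := ih (S.card - t) (by omega) (S \ T) (le_of_eq hcard) (∑ i ∈ T, x i ^ 2) (hX0 T) hW'
      have h1 := tail_group U L hL hU x t Q hQ a T (le_of_eq hTc) W
        (fun j hj => hW j (hTS hj))
      have hXs : ∑ i ∈ T, x i ^ 2 + ∑ j ∈ S \ T, x j ^ 2 = ∑ j ∈ S, x j ^ 2 := by
        rw [add_comm]; exact Finset.sum_sdiff hTS
      have hAs : ∑ i ∈ T, a i ^ 2 + ∑ j ∈ S \ T, a j ^ 2 = ∑ j ∈ S, a j ^ 2 := by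
        rw [add_comm]; exact Finset.sum_sdiff hTS
      rw [hXs] at h2
      have h3 := sum_sq_add_le Q (fun i => ∑ j ∈ T, U i j * (x j * a j))
        (fun i => ∑ j ∈ S \ T, U i j * (x j * a j)) (L / (Fintype.card I : ℝ)) W
        (∑ i ∈ T, a i ^ 2) (∑ j ∈ S, x j ^ 2) (∑ j ∈ S \ T, a j ^ 2) hm hW0 (hA0 _) (hX0 _)
        (hA0 _) h1 h2
      rw [hAs] at h3
      refine le_trans (le_of_eq ?_) h3
      apply Finset.sum_congr rfl
      intro i _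
      congr 1
      rw [add_comm]
      exact (Finset.sum_sdiff hTS).symm

theorem tail_op {I : Type} [Fintype I] [DecidableEq I] (U : I → I → ℝ) (L : ℝ) (hL : 0 ≤ L)
    (hU : Spread L U) (x : I → ℝ) (t : ℕ) (ht : 1 ≤ t) :
    ∃ T : Finset I, T.card ≤ t ∧ ∀ Q : Finset I, Q.card ≤ t → ∀ a : I → ℝ,
      ∑ i ∈ Q, (∑ j ∈ Tᶜ, U i j * (x j * a j)) ^ 2 ≤
        L / (Fintype.card I : ℝ) * (∑ j, x j ^ 2) * ∑ j, a j ^ 2 := by
  have hm : 0 ≤ L / (Fintype.card I : ℝ) := by positivity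
  have hX0 : 0 ≤ ∑ j, x j ^ 2 := Finset.sum_nonneg fun j _ => sq_nonneg _
  have hA0 : ∀ a : I → ℝ, 0 ≤ ∑ j, a j ^ 2 := fun a => Finset.sum_nonneg fun j _ => sq_nonneg _
  by_cases hc : t ≤ (Finset.univ : Finset I).card
  · obtain ⟨T, _, hTc, hT⟩ := exists_top (fun j => x j ^ 2) Finset.univ t hc
    refine ⟨T, le_of_eq hTc, fun Q hQ a => ?_⟩
    have hW' : ∀ j ∈ Tᶜ, (t : ℝ) * x j ^ 2 ≤ ∑ i ∈ T, x i ^ 2 := by
      intro j hj
      have : ∑ _i ∈ T, x j ^ 2 ≤ ∑ i ∈ T, x i ^ 2 :=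
        Finset.sum_le_sum fun i hi => hT i hi j (by simpa using hj)
      rwa [Finset.sum_const, hTc, nsmul_eq_mul] at this
    have h := tail_aux U L hL hU x t ht Q hQ a _ Tᶜ le_rfl (∑ i ∈ T, x i ^ 2)
      (Finset.sum_nonneg fun j _ => sq_nonneg _) hW'
    have hXs : ∑ i ∈ T, x i ^ 2 + ∑ j ∈ Tᶜ, x j ^ 2 = ∑ j, x j ^ 2 :=
      Finset.sum_add_sum_compl T _
    rw [hXs] at h
    refine h.trans ?_
    rw [mul_assoc]
    apply mul_le_mul_of_nonneg_left _ hm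
    apply mul_le_mul_of_nonneg_left _ hX0
    exact Finset.sum_le_univ_sum_of_nonneg fun j => sq_nonneg _
  · refine ⟨Finset.univ, ?_, fun Q hQ a => ?_⟩
    · omega
    · simp only [Finset.compl_univ, Finset.sum_empty]
      have : ∑ _i ∈ Q, (0 : ℝ) ^ 2 = 0 := by simp
      rw [this]
      have := hA0 a
      positivity

end Pool.Agent.FJL
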